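import Pool.Agent.T6.H46.CZ.Fin2
import Pool.Agent.T6.H46.CZ.DIR
import Pool.Agent.T6.H46.CZ.GAP
import Pool.Agent.T6.H46.CZ.C1L
import Pool.Agent.T6.H46.CZ.CO1
import Pool.Agent.T6.H46.CZ.SGN
import Pool.Agent.T6.H46.CZ.MEA
import Pool.Agent.T6.H46.CZ.IBP
import Pool.Agent.T6.H46.CZ.FOS
import Pool.Agent.T6.H46.CZ.KER
import Pool.Agent.T6.H46.CZ.FR2
import Pool.Agent.T6.H46.CZ.PS2
import Pool.Agent.T6.H46.CZ.CT2
import Pool.Agent.T6.H46.CZ.RC2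
import Pool.Agent.T6.H46.CZ.MZ

/-!
# Smooth cylindrical transformations over minimal rotations of tori are never Besicovitch
-/

set_option autoImplicit false

open Filter Set Topology MeasureTheory

namespace Pool.Agent.Results.MP_3d11e1_an.SmoothNotBesicovitch

/-- The torus `𝕋^d = ℝ^d / ℤ^d`. -/
abbrev Torus (d : ℕ) : Type := Fin d → UnitAddCircle

/-- The cylindrical transformation `T_φ (x, t) = (x + a, t + φ x)` of `𝕋^d × ℝ`, as a bijection. -/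
def cyl {d : ℕ} (a : Torus d) (φ : Torus d → ℝ) : Equiv.Perm (Torus d × ℝ) where
  toFun p := (p.1 + a, p.2 + φ p.1)
  invFun p := (p.1 - a, p.2 - φ (p.1 - a))
  left_inv p := by simp
  right_inv p := by simp

/-- The two-sided orbit `{T_φ^n p : n ∈ ℤ}`. -/
def orbit {d : ℕ} (a : Torus d) (φ : Torus d → ℝ) (p : Torus d × ℝ) : Set (Torus d × ℝ) :=
  Set.range fun n : ℤ => ((cyl a φ) ^ n) p

/-- The Birkhoff sum `φ^(n)(x)`: the real coordinate of `T_φ^n (x, 0)`. -/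
def birkhoff {d : ℕ} (a : Torus d) (φ : Torus d → ℝ) (n : ℤ) (x : Torus d) : ℝ :=
  (((cyl a φ) ^ n) (x, 0)).2

/-- The lift of `φ` to `ℝ^d`. -/
def lift {d : ℕ} (φ : Torus d → ℝ) : (Fin d → ℝ) → ℝ := fun p => φ (fun i => (p i : UnitAddCircle))

/-- Let `x ↦ x + a` be a minimal rotation of the torus `𝕋^d`, `d ≥ 1`, and let `φ` be of class
`C^∞`.
(1) If `T_φ` has a dense orbit then no orbit of `T_φ` is discrete: each orbit has an accumulation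
point in `𝕋^d × ℝ`, and there is no `x` with `|φ^(n)(x)| → ∞` as `|n| → ∞`. So `T_φ` is not
Besicovitch.
(2) The same conclusion holds for each `φ` of class `C^∞` with mean zero. -/
theorem result (d : ℕ) (hd : 1 ≤ d) (a : Torus d)
    (hmin : ∀ x : Torus d, Dense (Set.range fun n : ℤ => x + n • a)) (φ : Torus d → ℝ)
    (hφ : ContDiff ℝ ((⊤ : ℕ∞) : WithTop ℕ∞) (lift φ) ∨ AnalyticOnNhd ℝ (lift φ) Set.univ)
    (h : (∃ p, Dense (orbit a φ p)) ∨ ∫ x, φ x = 0) :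
    (∀ p, ∃ z, AccPt z (𝓟 (orbit a φ p))) ∧
    (∀ x, ¬ Tendsto (fun n : ℤ => |birkhoff a φ n x|) cofinite atTop) := by
  have hsm : ContDiff ℝ ((⊤ : ℕ∞) : WithTop ℕ∞) (lift φ) := by
    rcases hφ with hφ | hφ
    · exact hφ
    · exact contDiffOn_univ.mp (hφ.contDiffOn uniqueDiffOn_univ)
  obtain ⟨α, rfl⟩ := Pool.Agent.T6.H46.CZ.ad_exists_lift a
  have hα : Pool.Agent.T6.H46.CZ.Irr α := by
    refine Pool.Agent.T6.H46.CZ.ad_irr α ?_
    simpa using hmin 0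
  obtain ⟨c, hc1, hc2⟩ := Pool.Agent.T6.H46.CZ.mFOS Pool.Agent.T6.H46.CZ.mIBP d φ hsm
  have hc0 : c 0 = 0 := by
    rcases h with h | h
    · exact Pool.Agent.T6.H46.CZ.ad_mean Pool.Agent.T6.H46.CZ.mMEA α hα φ c hc1 hc2 h
    · have := Pool.Agent.T6.H46.CZ.mMZ d φ c (by simpa using hc1 0) hc2
      rw [← this, h, Complex.ofReal_zero]
  have hC1L := Pool.Agent.T6.H46.CZ.mC1L Pool.Agent.T6.H46.CZ.mDIR Pool.Agent.T6.H46.CZ.mGAP
  have key : ∀ x, ¬ Tendsto (fun n : ℤ =>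
      |Pool.Agent.V11279.BesT.S (fun i => (α i : UnitAddCircle)) φ n x|) cofinite atTop := fun x =>
    Pool.Agent.T6.H46.CZ.ad_zero (Pool.Agent.T6.H46.CZ.mCO1 hC1L) Pool.Agent.T6.H46.CZ.mSGN
      (Pool.Agent.T6.H46.CZ.mFR2 Pool.Agent.T6.H46.CZ.mKER) Pool.Agent.T6.H46.CZ.mPS2
      (Pool.Agent.T6.H46.CZ.mRC2 Pool.Agent.T6.H46.CZ.mCT2) α hα φ c hc1 hc2 hc0 x
  refine ⟨fun p => ?_, key⟩
  by_contra hcon
  push Not at hcon
  exact key p.1 (Pool.Agent.T6.H46.CZ.ad_acc hd _ hmin φ p hcon)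

end Pool.Agent.Results.MP_3d11e1_an.SmoothNotBesicovitch
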